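import Pool.Agent.Helper16.MK.Pot

/-!
# Avoidable sets of small elements
-/

open Finset

namespace Pool.Agent.Helper16.MK

/-- `S` is avoidable if one finite colouring gives, for every `a ∈ S`, different colours to
`a + b` and `a b` for all but finitely many `b`. -/
def Avoidable (S : Set ℕ) : Prop :=
  ∃ (r : ℕ) (c : ℕ → Fin r), ∀ a ∈ S, 0 < a → {b : ℕ | 0 < b ∧ c (a + b) = c (a * b)}.Finite

lemma Avoidable.mono {S T : Set ℕ} (h : Avoidable T) (hST : S ⊆ T) : Avoidable S := by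
  obtain ⟨r, c, hc⟩ := h
  exact ⟨r, c, fun a ha => hc a (hST ha)⟩

lemma avoidable_empty : Avoidable ∅ := ⟨1, fun _ => 0, fun a ha => absurd ha (Set.notMem_empty a)⟩

lemma Avoidable.union {S T : Set ℕ} (hS : Avoidable S) (hT : Avoidable T) : Avoidable (S ∪ T) := by
  obtain ⟨r, c, hc⟩ := hS
  obtain ⟨r', c', hc'⟩ := hT
  refine ⟨r * r', fun n => finProdFinEquiv (c n, c' n), fun a ha ha0 => ?_⟩
  rcases ha with ha | ha
  · refine (hc a ha ha0).subset ?_
    rintro b ⟨hb, h⟩
    exact ⟨hb, congrArg Prod.fst (finProdFinEquiv.injective h)⟩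
  · refine (hc' a ha ha0).subset ?_
    rintro b ⟨hb, h⟩
    exact ⟨hb, congrArg Prod.snd (finProdFinEquiv.injective h)⟩

lemma avoidable_biUnion {ι : Type*} (s : Finset ι) (S : ι → Set ℕ) (h : ∀ i ∈ s, Avoidable (S i)) :
    Avoidable (⋃ i ∈ s, S i) := by
  classical
  induction s using Finset.induction_on with
  | empty => simpa using avoidable_empty
  | insert a s ha ih =>
    rw [Finset.set_biUnion_insert]
    exact (h a (Finset.mem_insert_self a s)).union
      (ih fun i hi => h i (Finset.mem_insert_of_mem hi))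

lemma avoidable_norm (h : ℕ → ℂ) (hmul : ∀ m n, 0 < m → 0 < n → h (m * n) = h m * h n)
    (hnorm : ∀ n, 0 < n → ‖h n‖ = 1) (ε : ℝ) (hε : 0 < ε) : Avoidable {a | ε ≤ ‖h a - 1‖} := by
  obtain ⟨M, hM, H⟩ := potential ε hε
  obtain ⟨c, hc⟩ := H (fun _ => h) (fun _ => hmul) (fun _ => hnorm) (fun _ => 0)
  refine ⟨M * M, fun n => finProdFinEquiv (c n), fun a ha ha0 => ?_⟩
  refine (hc a ha0 0).subset ?_
  rintro b ⟨hb, h'⟩
  exact ⟨hb, finProdFinEquiv.injective h', rfl, le_rfl, ha⟩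

lemma avoidable_value (h : ℕ → ℂ) (hmul : ∀ m n, 0 < m → 0 < n → h (m * n) = h m * h n)
    (hnorm : ∀ n, 0 < n → ‖h n‖ = 1) (ζ : ℂ) (hζ : ζ ≠ 1) : Avoidable {a | h a = ζ} := by
  refine (avoidable_norm h hmul hnorm ‖ζ - 1‖ (norm_pos_iff.2 (sub_ne_zero.2 hζ))).mono ?_
  intro a ha
  have : h a = ζ := ha
  simp [this]

/-- `v_l(a) = v` with `1 ≤ v < k` is avoidable -/
lemma avoidable_val (l : ℕ) (hl : l.Prime) (v : ℕ) (hv : 0 < v) :
    Avoidable {a | 0 < a ∧ padicValNat l a = v} := by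
  haveI : Fact l.Prime := ⟨hl⟩
  have hne : e ((v : ℝ) / (v + 1 : ℕ)) ≠ 1 := by
    unfold e
    rw [Ne, Complex.exp_eq_one_iff]
    rintro ⟨m, hm⟩
    have h2 : (2 * (Real.pi : ℂ) * Complex.I) ≠ 0 := by simp [Real.pi_ne_zero]
    have h3 : ((v : ℝ) / (v + 1 : ℕ) : ℝ) = (m : ℝ) := by
      have : (((v : ℝ) / (v + 1 : ℕ) : ℝ) : ℂ) = (m : ℂ) := by
        apply mul_left_cancel₀ h2
        rw [← mul_comm (m : ℂ), ← hm]
        ring
      exact_mod_cast this
    have hv1 : (0 : ℝ) < ((v + 1 : ℕ) : ℝ) := by positivity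
    have h4 : 0 < (m : ℝ) := by
      rw [← h3]
      have : (0 : ℝ) < v := by exact_mod_cast hv
      positivity
    have h5 : (m : ℝ) < 1 := by
      rw [← h3, div_lt_one hv1]
      push_cast
      linarith
    have h6 : (0 : ℤ) < m := by exact_mod_cast h4
    have h7 : m < (1 : ℤ) := by exact_mod_cast h5
    omega
  refine (avoidable_value (fun n => e ((padicValNat l n : ℝ) / (v + 1 : ℕ))) ?_ ?_ _ hne).mono ?_
  · intro m n hm hn
    rw [← e_add, padicValNat.mul hm.ne' hn.ne']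
    congr 1
    push_cast
    ring
  · intro n _
    exact norm_e _
  · rintro a ⟨_, ha⟩
    show e ((padicValNat l a : ℝ) / (v + 1 : ℕ)) = _
    rw [ha]

/-- residue class `1` modulo `l` is avoidable (empty solution set) -/
lemma avoidable_one (l : ℕ) (hl : 1 < l) : Avoidable {a | a % l = 1} := by
  haveI : NeZero l := ⟨by omega⟩
  refine ⟨l, fun n => Fin.ofNat l n, fun a ha _ => ?_⟩
  convert Set.finite_empty
  rw [Set.eq_empty_iff_forall_notMem]
  rintro b ⟨_, h⟩
  have h1 : (a + b) % l = (a * b) % l := by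
    simpa [Fin.ofNat] using congrArg Fin.val h
  have ha' : a % l = 1 := ha
  rw [Nat.add_mod, Nat.mul_mod, ha', one_mul, Nat.mod_mod] at h1
  have hb := Nat.mod_lt b (by omega : 0 < l)
  by_cases hbl : 1 + b % l < l
  · rw [Nat.mod_eq_of_lt hbl] at h1
    omega
  · have : 1 + b % l = l := by omega
    rw [this, Nat.mod_self] at h1
    omega

/-- residue classes `≠ 0, 1` modulo a prime are avoidable -/
lemma avoidable_res (l : ℕ) (hl : l.Prime) (ρ : ℕ) (h0 : ρ % l ≠ 0) (h1 : ρ % l ≠ 1) :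
    Avoidable {a | a % l = ρ % l} := by
  haveI : Fact l.Prime := ⟨hl⟩
  haveI : NeZero l := ⟨hl.ne_zero⟩
  have hρ1 : ((ρ : ℕ) : ZMod l) ≠ 1 := by
    intro h
    have : ((ρ : ℕ) : ZMod l) = ((1 : ℕ) : ZMod l) := by simpa using h
    rw [ZMod.natCast_eq_natCast_iff'] at this
    rw [Nat.mod_eq_of_lt hl.one_lt] at this
    exact h1 this
  obtain ⟨χ, hχ⟩ := DirichletCharacter.exists_apply_ne_one_of_hasEnoughRootsOfUnity (n := l) ℂ hρ1
  have hunit : ∀ n : ℕ, ¬ l ∣ n → IsUnit ((n : ℕ) : ZMod l) := by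
    intro n hn
    rw [ZMod.isUnit_iff_coprime]
    exact ((Nat.Prime.coprime_iff_not_dvd hl).2 hn).symm
  refine (avoidable_value (fun n => χ ((n / l ^ padicValNat l n : ℕ) : ZMod l)) ?_ ?_ _ hχ).mono ?_
  · intro m n hm hn
    rw [← map_mul]
    congr 1
    rw [← Nat.cast_mul]
    congr 1
    rw [padicValNat.mul hm.ne' hn.ne', pow_add]
    exact (Nat.div_mul_div_comm (pow_padicValNat_dvd) (pow_padicValNat_dvd)).symm
  · intro n hn
    have hnd : ¬ l ∣ n / l ^ padicValNat l n := by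
      rw [← Nat.factorization_def n hl]
      exact Nat.not_dvd_ordCompl hl hn.ne'
    obtain ⟨u, hu⟩ := hunit _ hnd
    show ‖χ ((n / l ^ padicValNat l n : ℕ) : ZMod l)‖ = 1
    rw [← hu]
    exact DirichletCharacter.unit_norm_eq_one χ u
  · intro a ha
    have ha' : a % l = ρ % l := ha
    have hnd : ¬ l ∣ a := by
      intro h
      exact h0 (by rw [← ha']; exact Nat.mod_eq_zero_of_dvd h)
    show χ ((a / l ^ padicValNat l a : ℕ) : ZMod l) = _
    rw [padicValNat.eq_zero_of_not_dvd hnd, pow_zero, Nat.div_one]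
    congr 1
    rw [ZMod.natCast_eq_natCast_iff']
    exact ha'

/-- Non-multiples of a prime power are avoidable. -/
lemma avoidable_primePow (l : ℕ) (hl : l.Prime) (k : ℕ) :
    Avoidable {a | 0 < a ∧ ¬ l ^ k ∣ a} := by
  haveI : Fact l.Prime := ⟨hl⟩
  have hres : Avoidable (⋃ ρ ∈ (Finset.range l).filter (fun ρ => ρ % l ≠ 0 ∧ ρ % l ≠ 1),
      {a | a % l = ρ % l}) := by
    refine avoidable_biUnion _ _ fun ρ hρ => ?_
    obtain ⟨_, h0, h1⟩ := Finset.mem_filter.1 hρ
    exact avoidable_res l hl ρ h0 h1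
  have hval : Avoidable (⋃ v ∈ (Finset.range k).filter (fun v => 0 < v),
      {a | 0 < a ∧ padicValNat l a = v}) := by
    refine avoidable_biUnion _ _ fun v hv => ?_
    obtain ⟨_, h0⟩ := Finset.mem_filter.1 hv
    exact avoidable_val l hl v h0
  refine (((avoidable_one l hl.one_lt).union hres).union hval).mono ?_
  rintro a ⟨ha, hk⟩
  have hlt : padicValNat l a < k := by
    by_contra h
    push Not at h
    exact hk ((padicValNat_dvd_iff_le ha.ne').2 h)
  by_cases h0 : padicValNat l a = 0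
  · left
    have hnd : ¬ l ∣ a := by
      intro h
      have := (padicValNat_dvd_iff_le (p := l) (n := 1) ha.ne').1 (by simpa using h)
      omega
    by_cases h1 : a % l = 1
    · left; exact h1
    · right
      refine Set.mem_biUnion (x := a % l) ?_ ?_
      · simp only [Finset.coe_filter, Finset.mem_range, Set.mem_setOf_eq, Nat.mod_mod]
        refine ⟨Nat.mod_lt _ hl.pos, fun h => hnd (Nat.dvd_of_mod_eq_zero h), h1⟩
      · simp
  · right
    refine Set.mem_biUnion (x := padicValNat l a) ?_ ⟨ha, rfl⟩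
    simp only [Finset.coe_filter, Finset.mem_range, Set.mem_setOf_eq]
    exact ⟨hlt, Nat.pos_of_ne_zero h0⟩

/-- Non-multiples of `K` are avoidable. -/
lemma avoidable_not_dvd (K : ℕ) (hK : 0 < K) : Avoidable {a | 0 < a ∧ ¬ K ∣ a} := by
  have h : Avoidable (⋃ l ∈ K.primeFactors, {a | 0 < a ∧ ¬ l ^ (K.factorization l) ∣ a}) := by
    refine avoidable_biUnion _ _ fun l hl => ?_
    exact avoidable_primePow l (Nat.prime_of_mem_primeFactors hl) _
  refine h.mono ?_
  rintro a ⟨ha, hKa⟩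
  by_contra hcon
  apply hKa
  rw [← Nat.factorization_prime_le_iff_dvd hK.ne' ha.ne']
  intro p hp
  by_cases hpK : p ∈ K.primeFactors
  · by_contra hlt
    push Not at hlt
    apply hcon
    refine Set.mem_biUnion (x := p) hpK ⟨ha, fun hd => ?_⟩
    have := (Nat.Prime.pow_dvd_iff_le_factorization hp ha.ne').1 hd
    omega
  · rw [Nat.factorization_eq_zero_of_not_dvd]
    · exact Nat.zero_le _
    · intro hd
      exact hpK (Nat.mem_primeFactors.2 ⟨hp, hd, hK.ne'⟩)

end Pool.Agent.Helper16.MK
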