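import Pool.Agent.Helper76.Wav.Kron

/-!
# Real numbers t with p^(it) close to prescribed unit complex numbers for all primes p up to F

Kronecker's theorem for the logarithms of the primes, deduced from the closure theorem of the
wavelet library.
-/

open Finset
open scoped Matrix

namespace Pool.Agent.Helper16.MK

/-- `e x = exp (2 pi i x)`. -/
noncomputable def e (x : ℝ) : ℂ := Complex.exp (2 * Real.pi * x * Complex.I)

lemma e_add (x y : ℝ) : e (x + y) = e x * e y := by
  unfold e
  rw [← Complex.exp_add]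
  congr 1
  push_cast
  ring

lemma e_int (k : ℤ) : e k = 1 := by
  unfold e
  rw [Complex.exp_eq_one_iff]
  exact ⟨k, by push_cast; ring⟩

lemma e_zero : e 0 = 1 := by
  have := e_int 0
  simpa using this

lemma norm_e (x : ℝ) : ‖e x‖ = 1 := by
  unfold e
  have : (2 * (Real.pi : ℂ) * x * Complex.I) = ((2 * Real.pi * x : ℝ) : ℂ) * Complex.I := by
    push_cast; ring
  rw [this, Complex.norm_exp_ofReal_mul_I]

lemma e_sub_one (x : ℝ) : ‖e x - 1‖ ≤ 2 * Real.pi * |x| := by
  unfold e
  have h : (2 * (Real.pi : ℂ) * x * Complex.I) = Complex.I * ((2 * Real.pi * x : ℝ) : ℂ) := by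
    push_cast; ring
  rw [h]
  refine (Real.norm_exp_I_mul_ofReal_sub_one_le (x := 2 * Real.pi * x)).trans ?_
  rw [Real.norm_eq_abs, abs_mul, abs_of_pos (by positivity : (0 : ℝ) < 2 * Real.pi)]

/-- exists a unit number as e θ -/
lemma exists_e {z : ℂ} (hz : ‖z‖ = 1) : ∃ θ : ℝ, e θ = z := by
  refine ⟨Complex.arg z / (2 * Real.pi), ?_⟩
  unfold e
  have h2 : (2 * (Real.pi : ℂ) * ((Complex.arg z / (2 * Real.pi) : ℝ) : ℂ) * Complex.I)
      = Complex.arg z * Complex.I := by
    have : (Real.pi : ℂ) ≠ 0 := by exact_mod_cast Real.pi_ne_zero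
    push_cast
    field_simp
  rw [h2]
  have := Complex.norm_mul_exp_arg_mul_I z
  rw [hz] at this
  simpa using this

/-- a real number c such that c log r is not an integer for any rational r ≠ 1, r > 0. -/
lemma exists_c : ∃ c : ℝ, ∀ r : ℚ, 0 < r → r ≠ 1 → ∀ m : ℤ, c * Real.log r ≠ m := by
  have hcount : (⋃ r : ℚ, ⋃ m : ℤ, {((m : ℝ) / Real.log (r : ℝ))} : Set ℝ).Countable :=
    Set.countable_iUnion fun r => Set.countable_iUnion fun m => Set.countable_singleton _
  obtain ⟨c, hc⟩ := (hcount.dense_compl ℝ).nonempty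
  refine ⟨c, fun r hr h1 m hm => hc ?_⟩
  rw [Set.mem_iUnion]
  refine ⟨r, ?_⟩
  rw [Set.mem_iUnion]
  refine ⟨m, ?_⟩
  have hl : Real.log (r : ℝ) ≠ 0 := by
    apply Real.log_ne_zero_of_pos_of_ne_one
    · exact_mod_cast hr
    · exact_mod_cast h1
  rw [Set.mem_singleton_iff, eq_div_iff hl, hm]

lemma prod_zpow_eq_one {n : ℕ} (p : Fin n → ℕ) (hp : ∀ i, (p i).Prime)
    (hinj : Function.Injective p) (q : Fin n → ℤ) (h : ∏ i, ((p i : ℚ)) ^ (q i) = 1) :
    ∀ j, q j = 0 := by
  intro j
  haveI : Fact (p j).Prime := ⟨hp j⟩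
  have key : ∀ s : Finset (Fin n), padicValRat (p j) (∏ i ∈ s, ((p i : ℚ)) ^ (q i))
      = ∑ i ∈ s, if i = j then q i else 0 := by
    intro s
    induction s using Finset.induction_on with
    | empty => simp
    | insert a s ha ih =>
      rw [Finset.prod_insert ha, Finset.sum_insert ha, padicValRat.mul, ih]
      · congr 1
        rw [padicValRat.zpow]
        by_cases haj : a = j
        · subst haj
          rw [if_pos rfl]
          have : padicValRat (p a) ((p a : ℕ) : ℚ) = 1 := padicValRat.self (hp a).one_lt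
          rw [this, mul_one]
        · rw [if_neg haj]
          have hne : p j ≠ p a := fun h' => haj (hinj h'.symm)
          have : padicValRat (p j) ((p a : ℕ) : ℚ) = 0 := by
            rw [padicValRat.of_nat]
            have : padicValNat (p j) (p a) = 0 := by
              haveI : Fact (p a).Prime := ⟨hp a⟩
              exact padicValNat_primes hne
            simp [this]
          rw [this, mul_zero]
      · exact zpow_ne_zero _ (by exact_mod_cast (hp a).ne_zero)
      · exact Finset.prod_ne_zero_iff.2 fun i _ =>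
          zpow_ne_zero _ (by exact_mod_cast (hp i).ne_zero)
  have h2 := key Finset.univ
  rw [h, padicValRat.one] at h2
  simpa using h2.symm

/-- Kronecker for the logarithms of distinct primes. -/
lemma kron_fin (n : ℕ) (p : Fin n → ℕ) (hp : ∀ i, (p i).Prime) (hinj : Function.Injective p)
    (θ : Fin n → ℝ) (δ : ℝ) (hδ : 0 < δ) :
    ∃ t : ℝ, ∀ i, ∃ k : ℤ, |t * Real.log (p i) - θ i - k| < δ := by
  obtain ⟨c, hc⟩ := exists_c
  rcases n with _ | n
  · exact ⟨0, fun i => i.elim0⟩
  set M : Matrix (Fin (n + 1)) (Fin (n + 1)) ℝ :=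
    fun i j => if j = 0 then c * Real.log (p i) else 0 with hM
  have hmem := Wav.kronecker M θ (by
    intro q hq
    obtain ⟨m, hm⟩ := hq 0
    have e1 : c * ∑ i, (q i : ℝ) * Real.log (p i) = m := by
      rw [← hm, Finset.mul_sum]
      simp only [Matrix.mulVec, dotProduct, Matrix.transpose_apply, hM, if_true]
      refine Finset.sum_congr rfl fun i _ => ?_
      ring
    have e2 : ∑ i, (q i : ℝ) * Real.log (p i)
        = Real.log ((∏ i, ((p i : ℚ)) ^ (q i) : ℚ) : ℝ) := by
      push_cast
      rw [Real.log_prod]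
      · refine Finset.sum_congr rfl fun i _ => ?_
        rw [Real.log_zpow]
      · intro i _
        exact zpow_ne_zero _ (by exact_mod_cast (hp i).ne_zero)
    have e3 : ∏ i, ((p i : ℚ)) ^ (q i) = 1 := by
      by_contra hne
      have hpos : 0 < ∏ i, ((p i : ℚ)) ^ (q i) :=
        Finset.prod_pos fun i _ => zpow_pos (by exact_mod_cast (hp i).pos) _
      exact hc _ hpos hne m (by rw [← e2]; exact e1)
    have e4 := prod_zpow_eq_one p hp hinj q e3
    refine ⟨0, ?_⟩
    simp [dotProduct, e4])
  rw [Metric.mem_closure_iff] at hmem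
  obtain ⟨x, ⟨P, q, rfl⟩, hx⟩ := hmem δ hδ
  refine ⟨c * q 0, fun i => ⟨-P i, ?_⟩⟩
  have h1 := (dist_le_pi_dist θ _ i).trans_lt hx
  have h2 : (M *ᵥ fun a => (q a : ℝ)) i = c * q 0 * Real.log (p i) := by
    simp only [Matrix.mulVec, dotProduct, hM]
    rw [Finset.sum_eq_single 0]
    · simp; ring
    · intro j _ hj; simp [hj]
    · intro h; exact absurd (Finset.mem_univ _) h
  rw [Real.dist_eq, Pi.add_apply, h2, abs_sub_comm] at h1
  push_cast
  have : c * ↑(q 0) * Real.log ↑(p i) - θ i - -↑(P i)
      = ↑(P i) + c * ↑(q 0) * Real.log ↑(p i) - θ i := by ring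
  rw [this]
  exact h1

/-- For every completely multiplicative unimodular `h` there is a real `t` such that
`e (t log a)` is close to `h a` for all `a ≤ F`. -/
lemma exists_t (h : ℕ → ℂ) (hmul : ∀ m n, 0 < m → 0 < n → h (m * n) = h m * h n)
    (hnorm : ∀ n, 0 < n → ‖h n‖ = 1) (F : ℕ) (δ : ℝ) (hδ : 0 < δ) :
    ∃ t : ℝ, ∀ a, 0 < a → a ≤ F → ‖e (t * Real.log a) - h a‖ ≤ δ := by
  classical
  have h1 : h 1 = 1 := by
    have := hmul 1 1 one_pos one_pos
    rw [mul_one] at this
    have hne : h 1 ≠ 0 := by
      intro h0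
      have := hnorm 1 one_pos
      rw [h0, norm_zero] at this
      exact zero_ne_one this
    exact (mul_right_cancel₀ hne (by rw [one_mul]; exact this)).symm
  choose! θ hθ using fun n (hn : 0 < n) => exists_e (hnorm n hn)
  set S : Finset ℕ := (Finset.range (F + 1)).filter Nat.Prime with hS
  set δ' : ℝ := δ / (F + 1) with hδ'
  have hδ'pos : 0 < δ' := by positivity
  set p : Fin S.card → ℕ := fun i => (S.equivFin.symm i : ℕ) with hp
  have hpS : ∀ i, p i ∈ S := fun i => (S.equivFin.symm i).2
  obtain ⟨t, ht⟩ := kron_fin S.card p (fun i => (Finset.mem_filter.1 (hpS i)).2)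
    (fun i j hij => S.equivFin.symm.injective (Subtype.ext hij)) (fun i => θ (p i))
    (δ' / (2 * Real.pi)) (by positivity)
  refine ⟨t, ?_⟩
  have hprime : ∀ q, q.Prime → q ≤ F → ‖e (t * Real.log q) - h q‖ ≤ δ' := by
    intro q hq hqF
    have hqS : q ∈ S := by
      rw [hS, Finset.mem_filter, Finset.mem_range]
      exact ⟨by omega, hq⟩
    set i := S.equivFin ⟨q, hqS⟩ with hi
    have hpi : p i = q := by simp [hp, hi]
    obtain ⟨k, hk⟩ := ht i
    rw [hpi] at hk
    rw [← hθ q hq.pos]
    have e1 : e (t * Real.log q) = e (t * Real.log q - θ q - k) * e (θ q) := by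
      have : t * Real.log q = (t * Real.log q - θ q - k) + θ q + k := by ring
      conv_lhs => rw [this]
      rw [e_add, e_add, e_int, mul_one]
    rw [e1, ← sub_one_mul, norm_mul, norm_e, mul_one]
    refine (e_sub_one _).trans ?_
    have h3 : 2 * Real.pi * |t * Real.log q - θ q - k| ≤ 2 * Real.pi * (δ' / (2 * Real.pi)) :=
      mul_le_mul_of_nonneg_left hk.le (by positivity)
    refine h3.trans (le_of_eq ?_)
    field_simp
  have main : ∀ a : ℕ, 0 < a → a ≤ F → ‖e (t * Real.log a) - h a‖ ≤ a * δ' := by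
    intro a
    induction a using Nat.strong_induction_on with
    | _ a ih =>
      intro ha haF
      by_cases ha1 : a = 1
      · subst ha1
        simp only [Nat.cast_one, Real.log_one, mul_zero, e_zero, h1, sub_self, norm_zero, one_mul]
        exact hδ'pos.le
      obtain ⟨q, hq, b, rfl⟩ := Nat.exists_prime_and_dvd ha1
      have hb : 0 < b := Nat.pos_of_mul_pos_left ha |> fun _ => by
        rcases Nat.eq_zero_or_pos b with h0 | h0
        · subst h0; simp at ha
        · exact h0
      have hblt : b < q * b := by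
        have := hq.two_le
        nlinarith
      have hqle : q ≤ q * b := Nat.le_mul_of_pos_right q hb
      have i1 := ih b hblt hb (hblt.le.trans haF)
      have i2 := hprime q hq (hqle.trans haF)
      rw [hmul q b hq.pos hb]
      have e1 : e (t * Real.log ((q * b : ℕ) : ℝ)) = e (t * Real.log q) * e (t * Real.log b) := by
        rw [← e_add]
        congr 1
        push_cast
        rw [Real.log_mul (by exact_mod_cast hq.ne_zero) (by exact_mod_cast hb.ne')]
        ring
      rw [e1]
      have e2 : e (t * Real.log q) * e (t * Real.log b) - h q * h b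
          = (e (t * Real.log q) - h q) * e (t * Real.log b)
            + h q * (e (t * Real.log b) - h b) := by ring
      rw [e2]
      refine (norm_add_le _ _).trans ?_
      rw [norm_mul, norm_mul, norm_e, mul_one, hnorm q hq.pos, one_mul]
      have h5 : δ' + b * δ' ≤ ((q * b : ℕ) : ℝ) * δ' := by
        have h6 : (1 : ℝ) + b ≤ ((q * b : ℕ) : ℝ) := by
          have : 1 + b ≤ q * b := by
            have := hq.two_le
            nlinarith
          exact_mod_cast this
        nlinarith
      linarith
  intro a ha haF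
  refine (main a ha haF).trans ?_
  rw [hδ']
  have h7 : (a : ℝ) ≤ F + 1 := by
    have : (a : ℝ) ≤ F := by exact_mod_cast haF
    linarith
  rw [mul_div_assoc']
  rw [div_le_iff₀ (by positivity)]
  nlinarith

end Pool.Agent.Helper16.MK
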