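import Pool.Agent.Helper16.MK.Kron

/-!
# Potentials: finite colourings which see a completely multiplicative function of the small factor
-/

open Finset

namespace Pool.Agent.Helper16.MK

/-- the arc of the circle `ℝ/ℤ` containing `x`, among `M` arcs of equal length -/
noncomputable def arc (M : ℕ) [NeZero M] (x : ℝ) : Fin M := Fin.ofNat M ⌊(M : ℝ) * Int.fract x⌋₊

lemma arc_eq {M : ℕ} [NeZero M] {x y : ℝ} (h : arc M x = arc M y) :
    ‖e x - e y‖ ≤ 2 * Real.pi / M := by
  have hM : 0 < (M : ℝ) := by exact_mod_cast Nat.pos_of_ne_zero (NeZero.ne M)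
  have key : ∀ x : ℝ, ⌊(M : ℝ) * Int.fract x⌋₊ < M := by
    intro x
    rw [Nat.floor_lt (mul_nonneg hM.le (Int.fract_nonneg x))]
    nlinarith [Int.fract_lt_one x]
  have h1 : ⌊(M : ℝ) * Int.fract x⌋₊ = ⌊(M : ℝ) * Int.fract y⌋₊ := by
    have := congrArg Fin.val h
    simp only [arc, Fin.ofNat] at this
    rwa [Nat.mod_eq_of_lt (key x), Nat.mod_eq_of_lt (key y)] at this
  have hx0 := Nat.floor_le (mul_nonneg hM.le (Int.fract_nonneg x))
  have hx1 := Nat.lt_floor_add_one ((M : ℝ) * Int.fract x)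
  have hy0 := Nat.floor_le (mul_nonneg hM.le (Int.fract_nonneg y))
  have hy1 := Nat.lt_floor_add_one ((M : ℝ) * Int.fract y)
  rw [h1] at hx0 hx1
  have h2 : |Int.fract x - Int.fract y| ≤ 1 / M := by
    rw [abs_le]
    constructor
    · have : -(1 / (M : ℝ)) = (-1) / M := by ring
      rw [this, div_le_iff₀ hM]
      nlinarith
    · rw [le_div_iff₀ hM]
      nlinarith
  have hf : ∀ x : ℝ, e x = e (Int.fract x) := by
    intro x
    conv_lhs => rw [← Int.fract_add_floor x]
    rw [e_add, e_int, mul_one]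
  have h3 : e x - e y = (e (Int.fract x - Int.fract y) - 1) * e (Int.fract y) := by
    rw [sub_mul, ← e_add, one_mul, sub_add_cancel, ← hf, ← hf]
  rw [h3, norm_mul, norm_e, mul_one]
  refine (e_sub_one _).trans ?_
  calc 2 * Real.pi * |Int.fract x - Int.fract y| ≤ 2 * Real.pi * (1 / M) :=
        mul_le_mul_of_nonneg_left h2 (by positivity)
    _ = 2 * Real.pi / M := by ring

/-- slowly growing level functions -/
lemma exists_lev (B : ℕ → ℕ) : ∃ lev : ℕ → ℕ, (∀ w, ∃ n0, ∀ n, n0 ≤ n → w ≤ lev n) ∧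
    (∀ m n, m ≤ n → lev m ≤ lev n) ∧ (∀ n a, a ≤ lev n → lev (a * n) ≤ lev n + 1) ∧
    (∀ n, 0 < lev n → B (lev n) ≤ n) := by
  classical
  set N : ℕ → ℕ := fun w => Nat.rec 0 (fun w x => (w + 2) * (x + 1) + B (w + 1)) w with hN
  have hN0 : N 0 = 0 := rfl
  have hNs : ∀ w, N (w + 1) = (w + 2) * (N w + 1) + B (w + 1) := fun w => rfl
  have hlt : ∀ w, N w < N (w + 1) := by
    intro w
    rw [hNs]
    nlinarith [Nat.zero_le (N w), Nat.zero_le w, Nat.zero_le (B (w + 1))]
  have hmono : StrictMono N := strictMono_nat_of_lt_succ hlt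
  have hge : ∀ w, w ≤ N w := fun w => hmono.le_apply
  set lev : ℕ → ℕ := fun n => Nat.findGreatest (fun w => N w ≤ n) n with hlev
  have l1 : ∀ n, N (lev n) ≤ n := by
    intro n
    exact Nat.findGreatest_spec (P := fun w => N w ≤ n) (Nat.zero_le n) (by simp [hN0])
  have l2 : ∀ n, n < N (lev n + 1) := by
    intro n
    by_contra hcon
    push Not at hcon
    have h1 : lev n + 1 ≤ n := (hge _).trans hcon
    have := Nat.le_findGreatest (P := fun w => N w ≤ n) h1 hcon
    have h2 : lev n + 1 ≤ lev n := this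
    omega
  have l3 : ∀ w n, N w ≤ n → w ≤ lev n := by
    intro w n h
    exact Nat.le_findGreatest (P := fun w => N w ≤ n) ((hge w).trans h) h
  refine ⟨lev, fun w => ⟨N w, fun n hn => l3 w n hn⟩, ?_, ?_, ?_⟩
  · intro m n hmn
    exact l3 _ _ ((l1 m).trans hmn)
  · intro n a ha
    have h1 := l2 n
    have h2 : a * n < N (lev n + 2) := by
      rw [hNs (lev n + 1)]
      have h3 : a * n ≤ lev n * N (lev n + 1) := Nat.mul_le_mul ha h1.le
      nlinarith [Nat.zero_le (B (lev n + 1 + 1)), Nat.zero_le (N (lev n + 1))]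
    have h4 := (l1 (a * n)).trans_lt h2
    have h5 : lev (a * n) < lev n + 2 := by
      by_contra hcon
      push Not at hcon
      exact absurd (hmono.monotone hcon) (not_le.2 h4)
    omega
  · intro n hn
    obtain ⟨w, hw⟩ : ∃ w, lev n = w + 1 := ⟨lev n - 1, by omega⟩
    have h1 := l1 n
    rw [hw, hNs] at h1
    rw [hw]
    have : B (w + 1) ≤ (w + 2) * (N w + 1) + B (w + 1) := Nat.le_add_left _ _
    omega

/-- **Potential theorem.** For every family of completely multiplicative unimodular functions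
`h k` and every index function `z` there is a colouring with `M * M` colours such that, if
`a + b` and `a b` have the same colour and the same bounded index `k`, then `h k a` is close
to `1`, for all but finitely many `b`. -/
theorem potential (ε : ℝ) (hε : 0 < ε) : ∃ M : ℕ, 0 < M ∧ ∀ (h : ℕ → ℕ → ℂ),
    (∀ k m n, 0 < m → 0 < n → h k (m * n) = h k m * h k n) → (∀ k n, 0 < n → ‖h k n‖ = 1) →
    ∀ z : ℕ → ℕ, ∃ c : ℕ → Fin M × Fin M, ∀ a, 0 < a → ∀ Z : ℕ,
      {b : ℕ | 0 < b ∧ c (a + b) = c (a * b) ∧ z (a + b) = z (a * b) ∧ z (a * b) ≤ Z ∧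
        ε ≤ ‖h (z (a * b)) a - 1‖}.Finite := by
  obtain ⟨M, hM⟩ := exists_nat_gt (8 * Real.pi / ε)
  have hMpos : 0 < M := by
    have : (0 : ℝ) < M := lt_of_le_of_lt (by positivity) hM
    exact_mod_cast this
  haveI : NeZero M := ⟨hMpos.ne'⟩
  refine ⟨M, hMpos, fun h hmul hnorm z => ?_⟩
  have hMR : (0 : ℝ) < M := by exact_mod_cast hMpos
  have hM4 : 2 * Real.pi / M ≤ ε / 4 := by
    rw [div_lt_iff₀ hε] at hM
    rw [div_le_iff₀ hMR]
    nlinarith
  choose T hT using fun k w => exists_t (h k) (hmul k) (hnorm k) w (ε / 4) (by positivity)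
  set η : ℝ := ε / (8 * Real.pi) with hη
  have hηpos : 0 < η := by positivity
  set R : ℕ → ℝ := fun w => ∑ k ∈ range (w + 1), ∑ v ∈ range (w + 1), |T k v| with hR
  have hRT : ∀ w k v, k ≤ w → v ≤ w → |T k v| ≤ R w := by
    intro w k v hk hv
    have h1 : |T k v| ≤ ∑ v ∈ range (w + 1), |T k v| :=
      Finset.single_le_sum (f := fun v => |T k v|) (fun _ _ => abs_nonneg _)
        (Finset.mem_range.2 (by omega))
    refine h1.trans ?_
    exact Finset.single_le_sum (f := fun k => ∑ v ∈ range (w + 1), |T k v|)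
      (fun _ _ => Finset.sum_nonneg fun _ _ => abs_nonneg _) (Finset.mem_range.2 (by omega))
  have hR0 : ∀ w, 0 ≤ R w := fun w =>
    Finset.sum_nonneg fun _ _ => Finset.sum_nonneg fun _ _ => abs_nonneg _
  obtain ⟨lev, lv1, lv2, lv3, lv4⟩ := exists_lev (fun w => w + ⌈w * R w / η⌉₊ + 1)
  set E : ℕ → ℕ := fun w => w - w % 2 with hE
  set O : ℕ → ℕ := fun w => w - (w + 1) % 2 with hO
  refine ⟨fun n => (arc M (T (z n) (E (lev n)) * Real.log n),
    arc M (T (z n) (O (lev n)) * Real.log n)), fun a ha Z => ?_⟩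
  have h1one : ∀ k, h k 1 = 1 := by
    intro k
    have := hmul k 1 1 one_pos one_pos
    rw [mul_one] at this
    have hne : h k 1 ≠ 0 := by
      intro h0
      have := hnorm k 1 one_pos
      rw [h0, norm_zero] at this
      exact zero_ne_one this
    exact (mul_right_cancel₀ hne (by rw [one_mul]; exact this)).symm
  obtain ⟨n0, hn0⟩ := lv1 (max a Z + 1)
  refine (Set.finite_lt_nat (n0 + 2)).subset ?_
  rintro b ⟨hb, hc, hz, hzZ, hεh⟩
  by_contra hbn
  have hbn : n0 + 2 ≤ b := by
    by_contra h; exact hbn (by simpa using h)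
  have ha2 : 2 ≤ a := by
    by_contra hlt
    have : a = 1 := by omega
    subst this
    rw [h1one, sub_self, norm_zero] at hεh
    linarith
  set w := lev (a + b) with hw
  have hwa : max a Z + 1 ≤ w := hn0 (a + b) (by omega)
  have haw : a + 1 ≤ w := (Nat.add_le_add_right (le_max_left a Z) 1).trans hwa
  have hZw : Z + 1 ≤ w := (Nat.add_le_add_right (le_max_right a Z) 1).trans hwa
  have hab : a + b ≤ a * b := by
    obtain ⟨a', rfl⟩ : ∃ a', a = a' + 2 := ⟨a - 2, by omega⟩
    obtain ⟨b', rfl⟩ : ∃ b', b = b' + 2 := ⟨b - 2, by omega⟩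
    nlinarith [Nat.zero_le (a' * b')]
  have hl1 : w ≤ lev (a * b) := lv2 _ _ hab
  have hl2 : lev (a * b) ≤ w + 1 := by
    refine (lv2 (a * b) (a * (a + b)) (Nat.mul_le_mul_left a (by omega))).trans ?_
    exact lv3 (a + b) a (by omega)
  set k := z (a * b) with hk
  have hc1 := congrArg Prod.fst hc
  have hc2 := congrArg Prod.snd hc
  simp only [hz, ← hk, ← hw] at hc1 hc2
  -- a common index
  obtain ⟨v, hv1, hv2, hv3⟩ : ∃ v, w - 1 ≤ v ∧ v ≤ w ∧
      arc M (T k v * Real.log ((a + b : ℕ) : ℝ)) = arc M (T k v * Real.log ((a * b : ℕ) : ℝ)) := by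
    rcases (by omega : lev (a * b) = w ∨ lev (a * b) = w + 1) with hl | hl
    · rw [hl] at hc1
      exact ⟨E w, by simp only [hE]; omega, by simp only [hE]; omega, hc1⟩
    · rcases Nat.mod_two_eq_zero_or_one w with hw2 | hw2
      · rw [hl] at hc1
        have e1 : E w = w := by simp only [hE]; omega
        have e2 : E (w + 1) = w := by simp only [hE]; omega
        rw [e1, e2] at hc1
        exact ⟨w, by omega, le_rfl, hc1⟩
      · rw [hl] at hc2
        have e1 : O w = w := by simp only [hO]; omega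
        have e2 : O (w + 1) = w := by simp only [hO]; omega
        rw [e1, e2] at hc2
        exact ⟨w, by omega, le_rfl, hc2⟩
  have hTh := hT k v a ha (by omega)
  have harc := arc_eq hv3
  have haR : (0 : ℝ) < a := by exact_mod_cast ha
  have hbR : (0 : ℝ) < b := by exact_mod_cast hb
  -- factor the two exponentials
  have f1 : e (T k v * Real.log ((a * b : ℕ) : ℝ)) = e (T k v * Real.log a) * e (T k v * Real.log b) := by
    rw [← e_add]
    congr 1
    push_cast
    rw [Real.log_mul haR.ne' hbR.ne']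
    ring
  have f2 : e (T k v * Real.log ((a + b : ℕ) : ℝ))
      = e (T k v * Real.log (1 + a / b)) * e (T k v * Real.log b) := by
    rw [← e_add]
    congr 1
    have : ((a + b : ℕ) : ℝ) = (1 + a / b) * b := by
      push_cast
      field_simp
      ring
    rw [this, Real.log_mul (by positivity) hbR.ne']
    ring
  rw [f1, f2, ← sub_mul, norm_mul, norm_e, mul_one] at harc
  -- the perturbation is small
  have hlog : |T k v * Real.log (1 + a / b)| ≤ η := by
    have hBn := lv4 (a + b) (by omega)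
    rw [← hw] at hBn
    have hbig : (w * R w / η : ℝ) ≤ b := by
      have h1 : (w * R w / η : ℝ) ≤ ⌈w * R w / η⌉₊ := Nat.le_ceil _
      have h2 : ⌈w * R w / η⌉₊ ≤ b := by omega
      exact h1.trans (by exact_mod_cast h2)
    rw [div_le_iff₀ hηpos] at hbig
    have hl0 : 0 ≤ Real.log (1 + a / b) := Real.log_nonneg (by
      have : (0 : ℝ) ≤ a / b := by positivity
      linarith)
    have hl1 : Real.log (1 + a / b) ≤ a / b := by
      have := Real.log_le_sub_one_of_pos (by positivity : (0 : ℝ) < 1 + a / b)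
      linarith
    rw [abs_mul, abs_of_nonneg hl0]
    have hTR := hRT w k v (by omega) (by omega)
    calc |T k v| * Real.log (1 + a / b) ≤ R w * (a / b) :=
          mul_le_mul hTR hl1 hl0 (hR0 w)
      _ ≤ η := by
          rw [mul_div_assoc', div_le_iff₀ hbR]
          have haw' : (a : ℝ) ≤ w := by exact_mod_cast (by omega : a ≤ w)
          nlinarith [hR0 w]
  have hpert : ‖e (T k v * Real.log (1 + a / b)) - 1‖ ≤ ε / 4 := by
    refine (e_sub_one _).trans ?_
    calc 2 * Real.pi * |T k v * Real.log (1 + a / b)| ≤ 2 * Real.pi * η :=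
          mul_le_mul_of_nonneg_left hlog (by positivity)
      _ = ε / 4 := by rw [hη]; field_simp; ring
  have hfin : ‖h k a - 1‖ ≤ ε / 4 + ε / 4 + ε / 4 := by
    have e1 : h k a - 1 = -(e (T k v * Real.log a) - h k a)
        - (e (T k v * Real.log (1 + a / b)) - e (T k v * Real.log a))
        + (e (T k v * Real.log (1 + a / b)) - 1) := by ring
    rw [e1]
    refine (norm_add_le _ _).trans (add_le_add ((norm_sub_le _ _).trans (add_le_add ?_ ?_)) hpert)
    · rw [norm_neg]; exact hTh
    · exact harc.trans hM4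
  linarith

end Pool.Agent.Helper16.MK
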