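import Pool.Agent.Helper16.MK.Avoid

/-!
# One finite colouring forces the p-adic valuation to be bounded on A or on B
-/

open Finset

namespace Pool.Agent.Helper16.MK

lemma val_pow_mul (k u : ℕ) (hu : ¬ 3 ∣ u) : padicValNat 3 (3 ^ k * u) = k := by
  have hu0 : u ≠ 0 := by rintro rfl; exact hu (dvd_zero _)
  haveI : Fact (Nat.Prime 3) := ⟨Nat.prime_three⟩
  rw [padicValNat.mul (by positivity) hu0, padicValNat.prime_pow,
    padicValNat.eq_zero_of_not_dvd hu, add_zero]

lemma exists_unit (x : ℕ) (hx : 0 < x) : ∃ u, x = 3 ^ (padicValNat 3 x) * u ∧ ¬ 3 ∣ u := by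
  haveI : Fact (Nat.Prime 3) := ⟨Nat.prime_three⟩
  obtain ⟨u, hu⟩ := pow_padicValNat_dvd (p := 3) (n := x)
  refine ⟨u, hu, fun ⟨w, hw⟩ => ?_⟩
  have h := pow_succ_padicValNat_not_dvd (p := 3) hx.ne'
  apply h
  rw [pow_succ]
  conv_rhs => rw [hu, hw]
  exact ⟨w, by ring⟩

lemma val_add_of_lt {p : ℕ} [Fact p.Prime] {a b : ℕ} (ha : 0 < a) (hb : 0 < b)
    (h : padicValNat p a < padicValNat p b) : padicValNat p (a + b) = padicValNat p a := by
  have hab : a + b ≠ 0 := by omega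
  apply le_antisymm
  · by_contra hcon
    push Not at hcon
    have h1 : p ^ (padicValNat p a + 1) ∣ a + b := (padicValNat_dvd_iff_le hab).2 hcon
    have h2 : p ^ (padicValNat p a + 1) ∣ b := (padicValNat_dvd_iff_le hb.ne').2 h
    have h3 : p ^ (padicValNat p a + 1) ∣ a := (Nat.dvd_add_left h2).1 h1
    exact pow_succ_padicValNat_not_dvd ha.ne' h3
  · rw [← padicValNat_dvd_iff_le hab]
    refine dvd_add pow_padicValNat_dvd ?_
    exact (padicValNat_dvd_iff_le hb.ne').2 h.le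

/-- `v_3 (v_p n)` -/
noncomputable def nu (p n : ℕ) : ℕ := padicValNat 3 (padicValNat p n)

/-- last nonzero ternary digit of `v_p n` -/
noncomputable def lam (p n : ℕ) : ℕ := (padicValNat p n / 3 ^ nu p n) % 3

/-- the multiplicative functions -/
noncomputable def hh (p : ℕ) (k n : ℕ) : ℂ := e ((padicValNat p n : ℝ) / (3 ^ (k + 1) : ℕ))

lemma third (u : ℕ) (hu : ¬ 3 ∣ u) : 1 ≤ ‖e ((u : ℝ) / 3) - 1‖ := by
  obtain ⟨q, s, hqs, hs⟩ : ∃ q s : ℕ, u = 3 * q + s ∧ (s = 1 ∨ s = 2) :=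
    ⟨u / 3, u % 3, by omega, by omega⟩
  have key : e ((u : ℝ) / 3) = e ((s : ℝ) / 3) := by
    have h1 : (u : ℝ) / 3 = (s : ℝ) / 3 + ((q : ℤ) : ℝ) := by
      rw [hqs]
      push_cast
      ring
    rw [h1, e_add, e_int, mul_one]
  rw [key]
  have h3 : e ((s : ℝ) / 3) ^ 3 = 1 := by
    have : e ((s : ℝ) / 3) ^ 3 = e ((s : ℤ) : ℝ) := by
      rw [pow_succ, pow_two, ← e_add, ← e_add]
      congr 1
      push_cast
      ring
    rw [this, e_int]
  have hne : e ((s : ℝ) / 3) ≠ 1 := by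
    unfold e
    rw [Ne, Complex.exp_eq_one_iff]
    rintro ⟨m, hm'⟩
    have h2 : (2 * (Real.pi : ℂ) * Complex.I) ≠ 0 := by simp [Real.pi_ne_zero]
    have h3 : ((s : ℝ) / 3 : ℝ) = (m : ℝ) := by
      have : ((((s : ℝ) / 3 : ℝ)) : ℂ) = (m : ℂ) := by
        apply mul_left_cancel₀ h2
        rw [← mul_comm (m : ℂ), ← hm']
        ring
      exact_mod_cast this
    rw [div_eq_iff (by norm_num)] at h3
    have h4 : (s : ℤ) = m * 3 := by exact_mod_cast h3
    omega
  set ζ := e ((s : ℝ) / 3) with hζ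
  -- ζ is a primitive cube root of unity
  have h4 : ζ ^ 2 + ζ + 1 = 0 := by
    have : (ζ - 1) * (ζ ^ 2 + ζ + 1) = 0 := by linear_combination h3
    rcases mul_eq_zero.1 this with h | h
    · exact absurd (sub_eq_zero.1 h) hne
    · exact h
  have h5 : (ζ - 1) ^ 2 = -3 * ζ := by linear_combination h4
  have h6 : ‖ζ - 1‖ ^ 2 = 3 := by
    rw [← norm_pow, h5, norm_mul, hζ, norm_e]
    simp
  nlinarith [norm_nonneg (ζ - 1)]

/-- The pair colouring for the prime `p`. -/
theorem two (p : ℕ) (hp : p.Prime) : ∃ (r : ℕ) (c : ℕ → Fin r), ∀ A B : Set ℕ,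
    (∀ a ∈ A, 0 < a) → (∀ b ∈ B, 0 < b) →
    (∃ t, ∀ a ∈ A, ∀ b ∈ B, c (a + b) = t ∧ c (a * b) = t) →
    (∃ L, ∀ a ∈ A, padicValNat p a ≤ L) ∨ (∃ L, ∀ b ∈ B, padicValNat p b ≤ L) := by
  haveI : Fact p.Prime := ⟨hp⟩
  haveI : Fact (Nat.Prime 3) := ⟨Nat.prime_three⟩
  obtain ⟨M, hM, H⟩ := potential 1 one_pos
  obtain ⟨c, hc⟩ := H (hh p) (by
    intro k m n hm hn
    unfold hh
    rw [← e_add, padicValNat.mul hm.ne' hn.ne']
    congr 1
    push_cast
    ring) (fun k n _ => norm_e _) (nu p)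
  have hlam : ∀ n, lam p n < 3 := fun n => Nat.mod_lt _ (by norm_num)
  refine ⟨M * M * 3, fun n => finProdFinEquiv (finProdFinEquiv (c n), ⟨lam p n, hlam n⟩),
    fun A B hA hB ⟨t, ht⟩ => ?_⟩
  by_contra hcon
  push Not at hcon
  obtain ⟨hAu, hBu⟩ := hcon
  have hcc : ∀ a ∈ A, ∀ b ∈ B, c (a + b) = c (a * b) := by
    intro a ha b hb
    have h1 := (ht a ha b hb).1.trans (ht a ha b hb).2.symm
    have h2 := congrArg Prod.fst (finProdFinEquiv.injective h1)
    exact finProdFinEquiv.injective h2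
  have hll : ∀ a ∈ A, ∀ b ∈ B, ∀ a' ∈ A, ∀ b' ∈ B, lam p (a + b) = lam p (a' + b') := by
    intro a ha b hb a' ha' b' hb'
    have h1 := (ht a ha b hb).1.trans (ht a' ha' b' hb').1.symm
    have h2 := congrArg Prod.snd (finProdFinEquiv.injective h1)
    exact congrArg Fin.val h2
  have hlm : ∀ a ∈ A, ∀ b ∈ B, lam p (a + b) = lam p (a * b) := by
    intro a ha b hb
    have h1 := (ht a ha b hb).1.trans (ht a ha b hb).2.symm
    have h2 := congrArg Prod.snd (finProdFinEquiv.injective h1)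
    exact congrArg Fin.val h2
  -- the kill
  have kill : ∀ a, 0 < a → 0 < padicValNat p a → ∀ S : Set ℕ, (∀ b ∈ S, 0 < b) →
      (∀ b ∈ S, c (a + b) = c (a * b)) → (∀ b ∈ S, nu p a < nu p b) →
      (∀ L, ∃ b ∈ S, L < padicValNat p b) → False := by
    intro a ha hva S hS hSc hSn hSu
    have hfin := hc a ha (nu p a)
    obtain ⟨u, hu, hu3⟩ := exists_unit _ hva
    have hbig : 1 ≤ ‖hh p (nu p a) a - 1‖ := by
      have : hh p (nu p a) a = e ((u : ℝ) / 3) := by
        unfold hh nu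
        congr 1
        conv_lhs => rw [hu]
        rw [val_pow_mul _ _ hu3]
        push_cast
        rw [pow_succ]
        field_simp
      rw [this]
      exact third u hu3
    -- all b in S with large valuation belong to the finite set
    have hsub : {b | b ∈ S ∧ padicValNat p a < padicValNat p b} ⊆
        {b : ℕ | 0 < b ∧ c (a + b) = c (a * b) ∧ nu p (a + b) = nu p (a * b) ∧
          nu p (a * b) ≤ nu p a ∧ 1 ≤ ‖hh p (nu p (a * b)) a - 1‖} := by
      rintro b ⟨hbS, hlt⟩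
      have hb := hS b hbS
      have e1 : nu p (a + b) = nu p a := by
        unfold nu
        rw [val_add_of_lt ha hb hlt]
      have e2 : nu p (a * b) = nu p a := by
        unfold nu
        rw [padicValNat.mul ha.ne' hb.ne']
        exact val_add_of_lt hva (by omega) (hSn b hbS)
      refine ⟨hb, hSc b hbS, by rw [e1, e2], by rw [e2], by rw [e2]; exact hbig⟩
    have hfin2 := hfin.subset hsub
    obtain ⟨N, hN⟩ := hfin2.bddAbove
    obtain ⟨L, hL⟩ := (hfin2.image (padicValNat p)).bddAbove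
    obtain ⟨b, hbS, hb⟩ := hSu (max L (padicValNat p a))
    have hbm : b ∈ {b | b ∈ S ∧ padicValNat p a < padicValNat p b} :=
      ⟨hbS, (le_max_right _ _).trans_lt hb⟩
    have := hL (Set.mem_image_of_mem _ hbm)
    have h3 := (le_max_left L (padicValNat p a)).trans_lt hb
    omega
  -- pigeonhole in an unbounded set
  have pigeon : ∀ S : Set ℕ, (∀ L, ∃ b ∈ S, L < padicValNat p b) → (∃ N, ∀ b ∈ S, nu p b ≤ N) →
      ∃ n l, ∀ L, ∃ b ∈ S, L < padicValNat p b ∧ nu p b = n ∧ lam p b = l := by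
    rintro S hSu ⟨N, hN⟩
    by_contra hno
    push Not at hno
    choose F hF using hno
    obtain ⟨b, hb, hbL⟩ := hSu (∑ n ∈ Finset.range (N + 1), ∑ l ∈ Finset.range 3, F n l)
    have h1 := hF (nu p b) (lam p b) b hb (lt_of_le_of_lt ?_ hbL) rfl
    · exact h1 rfl
    · have e1 : F (nu p b) (lam p b) ≤ ∑ l ∈ Finset.range 3, F (nu p b) l :=
        Finset.single_le_sum (f := fun l => F (nu p b) l) (fun _ _ => Nat.zero_le _)
          (Finset.mem_range.2 (hlam b))
      exact e1.trans (Finset.single_le_sum (f := fun n => ∑ l ∈ Finset.range 3, F n l)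
        (fun _ _ => Nat.zero_le _) (Finset.mem_range.2 (by have := hN b hb; omega)))
  -- unbounded nu on one side
  have unb : ∀ A B : Set ℕ, (∀ a ∈ A, 0 < a) → (∀ b ∈ B, 0 < b) →
      (∀ a ∈ A, ∀ b ∈ B, c (a + b) = c (a * b)) → (∀ L, ∃ a ∈ A, L < padicValNat p a) →
      ¬ (∀ N, ∃ b ∈ B, N < nu p b) := by
    intro A B hA hB hcc hAu hBn
    obtain ⟨a, ha, hva⟩ := hAu 0
    refine kill a (hA a ha) hva {b | b ∈ B ∧ nu p a < nu p b} (fun b hb => hB b hb.1)
      (fun b hb => hcc a ha b hb.1) (fun b hb => hb.2) ?_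
    intro L
    obtain ⟨b, hb, hbn⟩ := hBn (max L (nu p a))
    refine ⟨b, ⟨hb, (le_max_right _ _).trans_lt hbn⟩, ?_⟩
    have h1 : 3 ^ nu p b ∣ padicValNat p b := pow_padicValNat_dvd
    have hv0 : padicValNat p b ≠ 0 := by
      intro h0
      have : nu p b = 0 := by unfold nu; rw [h0]; simp
      omega
    have h2 := Nat.le_of_dvd (Nat.pos_of_ne_zero hv0) h1
    have h3 : nu p b < 3 ^ nu p b := Nat.lt_pow_self (by norm_num)
    have h4 := (le_max_left L (nu p a)).trans_lt hbn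
    omega
  have hcc' : ∀ b ∈ B, ∀ a ∈ A, c (b + a) = c (b * a) := by
    intro b hb a ha
    rw [add_comm, mul_comm]
    exact hcc a ha b hb
  have hBn := unb A B hA hB hcc hAu
  have hAn := unb B A hB hA hcc' hBu
  push Not at hBn hAn
  obtain ⟨nA, lA, hA2⟩ := pigeon A hAu hAn
  obtain ⟨nB, lB, hB2⟩ := pigeon B hBu hBn
  rcases lt_trichotomy nA nB with hlt | heq | hgt
  · obtain ⟨a, ha, hva, hna, _⟩ := hA2 0
    refine kill a (hA a ha) hva {b | b ∈ B ∧ nu p b = nB} (fun b hb => hB b hb.1)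
      (fun b hb => hcc a ha b hb.1) (fun b hb => by rw [hna, hb.2]; exact hlt) ?_
    intro L
    obtain ⟨b, hb, h1, h2, _⟩ := hB2 L
    exact ⟨b, ⟨hb, h2⟩, h1⟩
  · subst heq
    obtain ⟨a, ha, hva, hna, hla⟩ := hA2 0
    obtain ⟨b, hb, hvb, hnb, hlb⟩ := hB2 (padicValNat p a)
    obtain ⟨a', ha', hva', hna', hla'⟩ := hA2 (padicValNat p b)
    have ha0 := hA a ha
    have hb0 := hB b hb
    have e1 : lam p (a + b) = lam p a := by
      unfold lam nu
      rw [val_add_of_lt ha0 hb0 hvb]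
    have e2 : lam p (a' + b) = lam p b := by
      unfold lam nu
      rw [add_comm, val_add_of_lt hb0 (hA a' ha') hva']
    have e3 : lA = lB := by
      rw [← hla, ← hlb, ← e1, ← e2]
      exact hll a ha b hb a' ha' b hb
    have e4 := hlm a ha b hb
    rw [e1] at e4
    obtain ⟨u, hu, hu3⟩ := exists_unit _ hva
    obtain ⟨w, hw, hw3⟩ := exists_unit _ (lt_of_le_of_lt (Nat.zero_le _) hvb)
    have hna2 : padicValNat 3 (padicValNat p a) = nA := hna
    have hnb2 : padicValNat 3 (padicValNat p b) = nA := hnb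
    rw [hna2] at hu
    rw [hnb2] at hw
    have hpos : 0 < 3 ^ nA := by positivity
    have f1 : lam p a = u % 3 := by
      unfold lam
      rw [hna, hu, Nat.mul_div_cancel_left _ hpos]
    have f2 : lam p b = w % 3 := by
      unfold lam
      rw [hnb, hw, Nat.mul_div_cancel_left _ hpos]
    have huw : u % 3 = w % 3 := by rw [← f1, ← f2, hla, hlb, e3]
    have hsum : ¬ 3 ∣ (u + w) := by omega
    have hval : padicValNat p (a * b) = 3 ^ nA * (u + w) := by
      rw [padicValNat.mul ha0.ne' hb0.ne', hu, hw]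
      ring
    have f3 : lam p (a * b) = (u + w) % 3 := by
      unfold lam nu
      rw [hval, val_pow_mul _ _ hsum, Nat.mul_div_cancel_left _ hpos]
    rw [f1, f3] at e4
    omega
  · obtain ⟨b, hb, hvb, hnb, _⟩ := hB2 0
    refine kill b (hB b hb) hvb {a | a ∈ A ∧ nu p a = nA} (fun a ha => hA a ha.1)
      (fun a ha => hcc' b hb a ha.1) (fun a ha => by rw [hnb, ha.2]; exact hgt) ?_
    intro L
    obtain ⟨a, ha, h1, h2, _⟩ := hA2 L
    exact ⟨a, ⟨ha, h2⟩, h1⟩

end Pool.Agent.Helper16.MK
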